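import Mathlib

set_option autoImplicit false

/-!
# The restricted growth function patterns `1121` and `1211` are `k`-Wilf equivalent for every `k`

An RGF `w` splits, for each letter `a`, into the pattern of the positions of `a` among the letters
which are at least `a`, and the word of the larger letters. A copy of `1121` (of `1211`) whose
smaller letter is `a` is a copy of `TTFT` (of `TFTT`) in the pattern of positions. Reversing, for
every letter `a`, the pattern of positions up to its last `T` is a bijection of the RGFs of length
`n` which exchanges the two numbers of copies.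
-/

namespace Pool.Agent.Results.MP_2348bc_co.AllK

/-- `w` is a restricted growth function: every letter is positive and at most one more than the
maximum of the previous letters (which is `0` when there are none, so the first letter is `1`). -/
def IsRGF (w : List ℕ) : Prop :=
  ∀ i (h : i < w.length), 1 ≤ w[i] ∧ w[i] ≤ 1 + (w.take i).foldr max 0

/-- The words `s` and `v` have the same length and the same relative order. -/
def SameOrder (s v : List ℕ) : Prop :=
  s.length = v.length ∧ ∀ i < v.length, ∀ j < v.length,
    (s.getD i 0 < s.getD j 0 ↔ v.getD i 0 < v.getD j 0) ∧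
      (s.getD i 0 = s.getD j 0 ↔ v.getD i 0 = v.getD j 0)

instance (s v : List ℕ) : Decidable (SameOrder s v) := by
  unfold SameOrder
  infer_instance

/-- The number of copies of `v` in `w`, that is of the sets of positions of `w` at which the subword
has the same relative order as `v` (`w.sublists` lists the subwords of `w`, one for each set of
positions). -/
def copies (v w : List ℕ) : ℕ := (w.sublists.filter fun s => SameOrder s v).length

/-- `R n k v`: the set of the restricted growth functions of length `n` which contain exactly `k`
copies of `v`. -/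
def R (n k : ℕ) (v : List ℕ) : Set (List ℕ) := {w | w.length = n ∧ IsRGF w ∧ copies v w = k}

/-! ### counting subsequences -/

/-- number of subsequences satisfying `Q` -/
def C {α : Type*} (Q : List α → Bool) (w : List α) : ℕ := (w.sublists').countP Q

lemma C_cons {α : Type*} (Q : List α → Bool) (x : α) (w : List α) :
    C Q (x :: w) = C Q w + C (fun s => Q (x :: s)) w := by
  unfold C
  rw [List.sublists'_cons, List.countP_append, List.countP_map]
  rfl

lemma C_zero {α : Type*} (Q : List α → Bool) (w : List α) (h : ∀ s, Q s = false) : C Q w = 0 := by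
  unfold C
  rw [List.countP_eq_zero]
  intro s _
  simp [h]

lemma copies_eq (v w : List ℕ) : copies v w = C (fun s => decide (SameOrder s v)) w := by
  unfold copies C
  rw [← List.countP_eq_length_filter]
  exact (List.sublists_perm_sublists' w).countP_eq _

lemma C_add {α : Type*} (Q Q1 Q2 : List α → Bool) (w : List α)
    (h : ∀ s, List.Sublist s w → ((Q s = true ↔ (Q1 s = true ∨ Q2 s = true)) ∧
      ¬ (Q1 s = true ∧ Q2 s = true))) :
    C Q w = C Q1 w + C Q2 w := by
  unfold C
  have : ∀ L : List (List α), (∀ s ∈ L, List.Sublist s w) →
      L.countP Q = L.countP Q1 + L.countP Q2 := by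
    intro L
    induction L with
    | nil => simp
    | cons s L ih =>
      intro hL
      have h1 := h s (hL s (by simp))
      have h2 := ih fun t ht => hL t (by simp [ht])
      rw [List.countP_cons, List.countP_cons, List.countP_cons, h2]
      rcases h1 with ⟨h1, h3⟩
      by_cases hq1 : Q1 s = true <;> by_cases hq2 : Q2 s = true <;> simp_all <;> omega
  exact this _ fun s hs => List.mem_sublists'.1 hs

lemma C_filter (b : ℕ) (w : List ℕ) : ∀ (Q : List ℕ → Bool), (∀ s, Q s = true → b ∉ s) →
    C Q w = C Q (w.filter (fun x => x ≠ b)) := by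
  induction w with
  | nil => intro Q _; rfl
  | cons x w ih =>
    intro Q hQ
    rw [C_cons, ih Q hQ]
    by_cases hx : x = b
    · subst hx
      rw [C_zero (fun s => Q (x :: s)) w]
      · simp
      · intro s
        by_contra h
        exact hQ (x :: s) (by simpa using h) (by simp)
    · rw [List.filter_cons_of_pos (by simpa using hx), C_cons]
      rw [ih (fun s => Q (x :: s)) fun s hs h => hQ _ hs (by simp [h])]

lemma C_map {α β : Type*} (f : α → β) (w : List α) (Q : List α → Bool) (Q' : List β → Bool)
    (h : ∀ s, List.Sublist s w → (Q s = true ↔ Q' (s.map f) = true)) :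
    C Q w = C Q' (w.map f) := by
  unfold C
  rw [List.sublists'_map, List.countP_map]
  apply List.countP_congr
  intro s hs
  exact h s (List.mem_sublists'.1 hs)

/-! ### bits -/

/-- positions of the letter `b` -/
def bits (b : ℕ) (w : List ℕ) : List Bool := w.map fun x => decide (x = b)

/-- the other letters -/
def rest (b : ℕ) (w : List ℕ) : List ℕ := w.filter fun x => x ≠ b

/-- inverse of `(bits, rest)` -/
def merge (b : ℕ) : List Bool → List ℕ → List ℕ
  | [], _ => []
  | true :: l, u => b :: merge b l u
  | false :: l, x :: u => x :: merge b l u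
  | false :: _, [] => []

lemma merge_bits_rest (b : ℕ) (w : List ℕ) : merge b (bits b w) (rest b w) = w := by
  induction w with
  | nil => rfl
  | cons x w ih =>
    by_cases hx : x = b
    · subst hx
      simp only [bits, rest, List.map_cons, decide_true, ne_eq, not_true_eq_false, decide_false,
        Bool.false_eq_true, not_false_eq_true, List.filter_cons_of_neg, merge] at ih ⊢
      rw [ih]
    · have h1 : rest b (x :: w) = x :: rest b w := by
        unfold rest
        rw [List.filter_cons_of_pos (by simpa using hx)]
      have h2 : bits b (x :: w) = false :: bits b w := by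
        simp [bits, hx]
      rw [h1, h2, merge, ih]

lemma merge_spec (b : ℕ) : ∀ (l : List Bool) (u : List ℕ), l.count false = u.length →
    (∀ x ∈ u, x ≠ b) → bits b (merge b l u) = l ∧ rest b (merge b l u) = u ∧
      (merge b l u).length = l.length := by
  intro l
  induction l with
  | nil =>
    intro u hu _
    have : u = [] := by
      simpa using hu.symm
    subst this
    simp [merge, bits, rest]
  | cons t l ih =>
    intro u hu hb
    cases t with
    | true =>
      have h := ih u (by simpa using hu) hb
      refine ⟨?_, ?_, ?_⟩
      · simp only [merge, bits, List.map_cons, decide_true] at h ⊢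
        rw [h.1]
      · simp only [merge, rest] at h ⊢
        rw [List.filter_cons_of_neg (by simp)]
        exact h.2.1
      · simp [merge, h.2.2]
    | false =>
      cases u with
      | nil => simp at hu
      | cons x u =>
        have hx : x ≠ b := hb x (by simp)
        have h := ih u (by simpa using hu) fun y hy => hb y (by simp [hy])
        refine ⟨?_, ?_, ?_⟩
        · simp only [merge, bits, List.map_cons] at h ⊢
          rw [h.1]
          simp [hx]
        · simp only [merge, rest] at h ⊢
          rw [List.filter_cons_of_pos (by simpa using hx), h.2.1]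
        · simp [merge, h.2.2]

/-- reverse the part up to the last `true` -/
def flip (l : List Bool) : List Bool :=
  (l.reverse.dropWhile fun t => !t) ++ (l.reverse.takeWhile fun t => !t)

lemma flip_decomp (l : List Bool) : ∃ D F : List Bool, (∀ t ∈ F, t = false) ∧
    (D = [] ∨ D.head? = some true) ∧ l = D.reverse ++ F ∧ flip l = D ++ F := by
  have h5 : ∀ t ∈ l.reverse.takeWhile (fun t => !t), t = false := by
    intro t ht
    have := List.mem_takeWhile_imp ht
    simpa using this
  have h6 : (l.reverse.takeWhile (fun t => !t)).reverse = l.reverse.takeWhile (fun t => !t) := by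
    rw [List.eq_replicate_of_mem h5, List.reverse_replicate]
  refine ⟨l.reverse.dropWhile (fun t => !t), l.reverse.takeWhile (fun t => !t), h5, ?_, ?_, rfl⟩
  · rcases h : l.reverse.dropWhile (fun t => !t) with _ | ⟨x, D⟩
    · left; rfl
    · right
      have h1 : (l.reverse.dropWhile (fun t => !t)) ≠ [] := by rw [h]; simp
      have h2 := List.head_dropWhile_not (p := fun t : Bool => !t) (l := l.reverse) h1
      simp only [h, List.head_cons] at h2
      simpa using h2
  · have h1 := List.takeWhile_append_dropWhile (p := fun t : Bool => !t) (l := l.reverse)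
    have h2 := congrArg List.reverse h1
    rw [List.reverse_append, List.reverse_reverse, h6] at h2
    exact h2.symm

lemma takeWhile_all {F : List Bool} (hF : ∀ t ∈ F, t = false) (D : List Bool)
    (hD : D = [] ∨ D.head? = some true) :
    (F ++ D).takeWhile (fun t => !t) = F ∧ (F ++ D).dropWhile (fun t => !t) = D := by
  induction F with
  | nil =>
    cases D with
    | nil => simp
    | cons x D =>
      rcases hD with h | h
      · simp at h
      · simp only [List.head?_cons, Option.some.injEq] at h
        subst h
        simp
  | cons t F ih =>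
    have ht : t = false := hF t (by simp)
    subst ht
    have := ih fun t ht => hF t (by simp [ht])
    simpa using this

lemma reverse_false {F : List Bool} (hF : ∀ t ∈ F, t = false) : F.reverse = F := by
  rw [List.eq_replicate_of_mem hF, List.reverse_replicate]

lemma flip_eq {D F : List Bool} (hF : ∀ t ∈ F, t = false) (hD : D = [] ∨ D.head? = some true) :
    flip (D.reverse ++ F) = D ++ F := by
  unfold flip
  rw [List.reverse_append, List.reverse_reverse, reverse_false hF,
    (takeWhile_all hF D hD).1, (takeWhile_all hF D hD).2]

lemma flip_head {l : List Bool} (h : l.head? = some true) : (flip l).head? = some true := by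
  obtain ⟨D, F, hF, hD, hl, hf⟩ := flip_decomp l
  rw [hf]
  rcases hD with hD | hD
  · subst hD
    simp only [List.reverse_nil, List.nil_append] at hl ⊢
    rw [← hl]
    exact h
  · rw [List.head?_append, hD]
    rfl

lemma flip_flip {l : List Bool} (h : l.head? = some true) : flip (flip l) = l := by
  obtain ⟨D, F, hF, hD, hl, hf⟩ := flip_decomp l
  rw [hf]
  have h1 : D ++ F = D.reverse.reverse ++ F := by rw [List.reverse_reverse]
  rw [h1, flip_eq hF, hl]
  rcases eq_or_ne D [] with h0 | h0
  · left
    simp [h0]
  · right
    rw [hl, List.head?_append_of_ne_nil _ (by simpa using h0)] at h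
    exact h

lemma flip_perm (l : List Bool) : List.Perm (flip l) l := by
  obtain ⟨D, F, hF, hD, hl, hf⟩ := flip_decomp l
  rw [hf]
  conv_rhs => rw [hl]
  exact (List.reverse_perm D).symm.append_right F

/-! ### counting in bits -/

/-- number of copies of the word `p` -/
def cw (p l : List Bool) : ℕ := C (fun s => decide (s = p)) l

lemma cw_nil (l : List Bool) : cw [] l = 1 := by
  induction l with
  | nil => rfl
  | cons x l ih =>
    unfold cw at ih ⊢
    rw [C_cons, ih, C_zero]
    intro s
    simp

lemma cw_cons (p : List Bool) (x y : Bool) (l : List Bool) :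
    cw (y :: p) (x :: l) = cw (y :: p) l + if x = y then cw p l else 0 := by
  unfold cw
  rw [C_cons]
  congr 1
  split_ifs with h
  · subst h
    congr 1
    funext s
    simp
  · rw [C_zero]
    intro s
    simp [h]

lemma cw_append_false (F : List Bool) (hF : ∀ t ∈ F, t = false) :
    ∀ p l : List Bool, cw (p ++ [true]) (l ++ F) = cw (p ++ [true]) l := by
  have h0 : ∀ p : List Bool, cw (p ++ [true]) F = 0 := by
    intro p
    unfold cw C
    rw [List.countP_eq_zero]
    intro s hs hs'
    have h1 : s = p ++ [true] := by simpa using hs'
    have h2 : List.Sublist s F := List.mem_sublists'.1 hs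
    have h3 : true ∈ F := h2.subset (by rw [h1]; simp)
    exact absurd (hF _ h3) (by simp)
  intro p l
  induction l generalizing p with
  | nil =>
    rw [List.nil_append, h0 p]
    cases p <;> rfl
  | cons x l ih =>
    cases p with
    | nil =>
      simp only [List.nil_append, List.cons_append, cw_cons, cw_nil]
      have := ih []
      simp only [List.nil_append] at this
      rw [this]
    | cons y p =>
      simp only [List.cons_append, cw_cons]
      have h1 := ih (y :: p)
      simp only [List.cons_append] at h1
      rw [h1, ih p]

lemma cw_reverse (p l : List Bool) : cw p.reverse l.reverse = cw p l := by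
  unfold cw C
  rw [List.sublists'_reverse, List.countP_map]
  rw [← (List.sublists_perm_sublists' l).countP_eq]
  apply List.countP_congr
  intro s _
  simp

lemma cw_flip (p l : List Bool) :
    cw (true :: (p ++ [true])) l = cw (true :: (p.reverse ++ [true])) (flip l) := by
  obtain ⟨D, F, hF, hD, hl, hf⟩ := flip_decomp l
  rw [hf]
  conv_lhs => rw [hl]
  rw [← List.cons_append, ← List.cons_append, cw_append_false F hF, cw_append_false F hF]
  rw [← cw_reverse]
  simp

/-! ### copies -/

lemma sameOrder_1121 (s : List ℕ) :
    SameOrder s [1, 1, 2, 1] ↔ ∃ x y, x < y ∧ s = [x, x, y, x] := by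
  constructor
  · rintro ⟨h1, h2⟩
    match s, h1 with
    | [a, b, c, d], _ =>
      have e1 := (h2 0 (by simp) 1 (by simp)).2
      have e2 := (h2 0 (by simp) 3 (by simp)).2
      have e3 := (h2 0 (by simp) 2 (by simp)).1
      simp at e1 e2 e3
      exact ⟨a, c, e3, by rw [← e1, ← e2]⟩
  · rintro ⟨x, y, hxy, rfl⟩
    refine ⟨rfl, ?_⟩
    intro i hi j hj
    simp only [List.length_cons, List.length_nil] at hi hj
    interval_cases i <;> interval_cases j <;> simp <;> omega

lemma sameOrder_1211 (s : List ℕ) :
    SameOrder s [1, 2, 1, 1] ↔ ∃ x y, x < y ∧ s = [x, y, x, x] := by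
  constructor
  · rintro ⟨h1, h2⟩
    match s, h1 with
    | [a, b, c, d], _ =>
      have e1 := (h2 0 (by simp) 2 (by simp)).2
      have e2 := (h2 0 (by simp) 3 (by simp)).2
      have e3 := (h2 0 (by simp) 1 (by simp)).1
      simp at e1 e2 e3
      exact ⟨a, b, e3, by rw [← e1, ← e2]⟩
  · rintro ⟨x, y, hxy, rfl⟩
    refine ⟨rfl, ?_⟩
    intro i hi j hj
    simp only [List.length_cons, List.length_nil] at hi hj
    interval_cases i <;> interval_cases j <;> simp <;> omega

lemma copies_split (v : List ℕ) (p : List Bool) (b : ℕ) (w : List ℕ) (hw : ∀ x ∈ w, b ≤ x)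
    (h : ∀ s : List ℕ, (∀ x ∈ s, b ≤ x) →
      ((SameOrder s v ∧ b ∈ s) ↔ s.map (fun x => decide (x = b)) = p)) :
    copies v w = cw p (bits b w) + copies v (rest b w) := by
  rw [copies_eq, copies_eq]
  rw [C_add (fun s => decide (SameOrder s v)) (fun s => decide (SameOrder s v ∧ b ∈ s))
    (fun s => decide (SameOrder s v ∧ b ∉ s)) w]
  · congr 1
    · unfold cw bits
      apply C_map
      intro s hs
      simp only [decide_eq_true_eq]
      exact h s fun x hx => hw x (hs.subset hx)
    · rw [C_filter b w (fun s => decide (SameOrder s v ∧ b ∉ s))]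
      · unfold C rest
        apply List.countP_congr
        intro s hs
        have h1 : List.Sublist s _ := List.mem_sublists'.1 hs
        have h2 : b ∉ s := by
          intro hb
          have := h1.subset hb
          simp at this
        simp [h2]
      · intro s hs
        simp only [decide_eq_true_eq] at hs
        exact hs.2
  · intro s _
    simp only [decide_eq_true_eq]
    tauto

lemma map_eq_four {b : ℕ} {s : List ℕ} {t1 t2 t3 t4 : Bool}
    (h : s.map (fun x => decide (x = b)) = [t1, t2, t3, t4]) : ∃ x1 x2 x3 x4,
      s = [x1, x2, x3, x4] ∧ decide (x1 = b) = t1 ∧ decide (x2 = b) = t2 ∧ decide (x3 = b) = t3 ∧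
      decide (x4 = b) = t4 := by
  match s, h with
  | [x1, x2, x3, x4], h =>
    simp only [List.map_cons, List.map_nil, List.cons.injEq, and_true] at h
    exact ⟨x1, x2, x3, x4, rfl, h.1, h.2.1, h.2.2.1, h.2.2.2⟩

lemma copies_1121 (b : ℕ) (w : List ℕ) (hw : ∀ x ∈ w, b ≤ x) :
    copies [1, 1, 2, 1] w = cw [true, true, false, true] (bits b w) +
      copies [1, 1, 2, 1] (rest b w) := by
  apply copies_split _ _ _ _ hw
  intro s hs
  rw [sameOrder_1121]
  constructor
  · rintro ⟨⟨x, y, hxy, rfl⟩, hb⟩
    have h1 := hs x (by simp)
    have h2 : x = b := by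
      simp only [List.mem_cons, List.not_mem_nil, or_false] at hb
      omega
    subst h2
    have h3 : y ≠ x := hxy.ne'
    simp [h3]
  · intro h
    obtain ⟨x1, x2, x3, x4, rfl, e1, e2, e3, e4⟩ := map_eq_four h
    simp only [decide_eq_true_eq, decide_eq_false_iff_not] at e1 e2 e3 e4
    subst e1 e2 e4
    have := hs x3 (by simp)
    refine ⟨⟨_, x3, ?_, rfl⟩, by simp⟩
    omega

lemma copies_1211 (b : ℕ) (w : List ℕ) (hw : ∀ x ∈ w, b ≤ x) :
    copies [1, 2, 1, 1] w = cw [true, false, true, true] (bits b w) +
      copies [1, 2, 1, 1] (rest b w) := by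
  apply copies_split _ _ _ _ hw
  intro s hs
  rw [sameOrder_1211]
  constructor
  · rintro ⟨⟨x, y, hxy, rfl⟩, hb⟩
    have h1 := hs x (by simp)
    have h2 : x = b := by
      simp only [List.mem_cons, List.not_mem_nil, or_false] at hb
      omega
    subst h2
    have h3 : y ≠ x := hxy.ne'
    simp [h3]
  · intro h
    obtain ⟨x1, x2, x3, x4, rfl, e1, e2, e3, e4⟩ := map_eq_four h
    simp only [decide_eq_true_eq, decide_eq_false_iff_not] at e1 e2 e3 e4
    subst e1 e3 e4
    have := hs x2 (by simp)
    refine ⟨⟨_, x2, ?_, rfl⟩, by simp⟩
    omega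

/-! ### restricted growth functions -/

/-- letters at least `b`, the next letter at most `A` -/
def G (b : ℕ) : ℕ → List ℕ → Prop
  | _, [] => True
  | A, x :: w => b ≤ x ∧ x ≤ A ∧ G b (max A (x + 1)) w

lemma G_mem {b : ℕ} : ∀ {A : ℕ} {w : List ℕ}, G b A w → ∀ x ∈ w, b ≤ x := by
  intro A w
  induction w generalizing A with
  | nil => intro _ x hx; simp at hx
  | cons y w ih =>
    rintro ⟨h1, _, h3⟩ x hx
    rcases List.mem_cons.1 hx with rfl | hx
    · exact h1
    · exact ih h3 x hx

lemma G_filter {b : ℕ} : ∀ {A : ℕ} {w : List ℕ}, b + 1 ≤ A → (G b A w ↔ G (b + 1) A (rest b w)) := by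
  intro A w
  induction w generalizing A with
  | nil => intro _; simp [G, rest]
  | cons x w ih =>
    intro hA
    by_cases hx : x = b
    · subst hx
      have h1 : rest x (x :: w) = rest x w := by
        unfold rest
        rw [List.filter_cons_of_neg (by simp)]
      rw [h1]
      simp only [G]
      rw [max_eq_left hA, ← ih hA]
      constructor
      · exact fun h => h.2.2
      · exact fun h => ⟨le_rfl, by omega, h⟩
    · have h1 : rest b (x :: w) = x :: rest b w := by
        unfold rest
        rw [List.filter_cons_of_pos (by simpa using hx)]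
      rw [h1]
      simp only [G]
      rw [ih (A := max A (x + 1)) (by omega)]
      constructor
      · exact fun h => ⟨by omega, h.2⟩
      · exact fun h => ⟨by omega, h.2⟩

lemma good_iff (b : ℕ) (x : ℕ) (w : List ℕ) :
    G b b (x :: w) ↔ x = b ∧ G (b + 1) (b + 1) (rest b (x :: w)) := by
  simp only [G]
  constructor
  · rintro ⟨h1, h2, h3⟩
    have h4 : x = b := le_antisymm h2 h1
    subst h4
    refine ⟨rfl, ?_⟩
    rw [max_eq_right (by omega)] at h3
    have h5 := (G_filter (le_refl (x + 1))).1 h3
    unfold rest at h5 ⊢
    rw [List.filter_cons_of_neg (by simp)]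
    exact h5
  · rintro ⟨rfl, h⟩
    refine ⟨le_rfl, le_rfl, ?_⟩
    rw [max_eq_right (by omega)]
    rw [G_filter (le_refl (x + 1))]
    unfold rest at h ⊢
    rw [List.filter_cons_of_neg (by simp)] at h
    exact h

lemma foldr_max_append (l : List ℕ) (x : ℕ) : (l ++ [x]).foldr max 0 = max (l.foldr max 0) x := by
  induction l with
  | nil => simp
  | cons y l ih => simp only [List.cons_append, List.foldr_cons, ih, max_assoc]

lemma isRGF_aux (w : List ℕ) : ∀ (l : List ℕ),
    (∀ i (h : i < w.length), 1 ≤ w[i] ∧ w[i] ≤ 1 + (l ++ w.take i).foldr max 0) ↔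
      G 1 (1 + l.foldr max 0) w := by
  induction w with
  | nil => intro l; simp [G]
  | cons x w ih =>
    intro l
    simp only [G]
    have h1 : max (1 + l.foldr max 0) (x + 1) = 1 + (l ++ [x]).foldr max 0 := by
      rw [foldr_max_append]
      omega
    rw [h1, ← ih (l ++ [x])]
    constructor
    · intro h
      have h0 := h 0 (by simp)
      simp only [List.getElem_cons_zero, List.take_zero, List.append_nil] at h0
      refine ⟨h0.1, h0.2, ?_⟩
      intro i hi
      have h2 := h (i + 1) (by simpa using hi)
      simpa using h2
    · rintro ⟨h2, h3, h4⟩ i hi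
      cases i with
      | zero => simpa using ⟨h2, h3⟩
      | succ i =>
        have h5 := h4 i (by simpa using hi)
        simpa using h5

lemma isRGF_iff (w : List ℕ) : IsRGF w ↔ G 1 1 w := by
  have := isRGF_aux w []
  simpa [IsRGF] using this

/-! ### the bijection -/

/-- the bijection -/
def phi : ℕ → ℕ → List ℕ → List ℕ
  | 0, _, w => w
  | n + 1, b, w => merge b (flip (bits b w)) (phi n (b + 1) (rest b w))

lemma phi_nil (n b : ℕ) : phi n b [] = [] := by
  cases n <;> rfl

lemma count_false_bits (b : ℕ) (w : List ℕ) : (bits b w).count false = (rest b w).length := by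
  induction w with
  | nil => rfl
  | cons x w ih =>
    by_cases hx : x = b
    · simp only [bits, rest] at ih ⊢
      subst hx
      rw [List.filter_cons_of_neg (by simp)]
      simpa using ih
    · simp only [bits, rest] at ih ⊢
      rw [List.filter_cons_of_pos (by simpa using hx)]
      simp [hx, ih]

lemma phi_spec : ∀ (n b : ℕ) (w : List ℕ), w.length ≤ n → G b b w →
    (phi n b w).length = w.length ∧ G b b (phi n b w) ∧ phi n b (phi n b w) = w ∧
      copies [1, 1, 2, 1] (phi n b w) = copies [1, 2, 1, 1] w ∧
      copies [1, 2, 1, 1] (phi n b w) = copies [1, 1, 2, 1] w := by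
  intro n
  induction n with
  | zero =>
    intro b w hw _
    have : w = [] := List.length_eq_zero_iff.1 (by omega)
    subst this
    rw [phi_nil]
    refine ⟨rfl, trivial, phi_nil _ _, ?_, ?_⟩ <;> decide
  | succ n ih =>
    intro b w hw hG
    cases w with
    | nil =>
      rw [phi_nil]
      refine ⟨rfl, trivial, phi_nil _ _, ?_, ?_⟩ <;> decide
    | cons x w =>
      obtain ⟨hx, hG'⟩ := (good_iff b x w).1 hG
      subst hx
      set W := x :: w with hW
      set u := rest x W with hu
      set l := bits x W with hl
      have hul : u.length ≤ n := by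
        have h1 : u = rest x w := by
          rw [hu, hW]
          unfold rest
          rw [List.filter_cons_of_neg (by simp)]
        rw [h1]
        have h2 : (rest x w).length ≤ w.length := List.length_filter_le _ _
        have h3 : w.length + 1 ≤ n + 1 := by
          rw [← List.length_cons (a := x)]
          exact hw
        omega
      obtain ⟨e1, e2, e3, e4, e5⟩ := ih (x + 1) u hul hG'
      set u' := phi n (x + 1) u with hu'
      have hphi : phi (n + 1) x W = merge x (flip l) u' := rfl
      have hcount : (flip l).count false = u'.length := by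
        rw [(flip_perm l).count_eq, e1, hl, hu, count_false_bits]
      have hne : ∀ y ∈ u', y ≠ x := by
        intro y hy
        have := G_mem e2 y hy
        omega
      obtain ⟨m1, m2, m3⟩ := merge_spec x (flip l) u' hcount hne
      have hlh : l.head? = some true := by
        rw [hl, hW]
        simp [bits]
      have hfh := flip_head hlh
      rw [hphi]
      set W' := merge x (flip l) u' with hW'
      have hlen : W'.length = W.length := by
        rw [m3, (flip_perm l).length_eq, hl]
        simp [bits]
      have hcons : ∃ t, W' = x :: t := by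
        rcases hfl : flip l with _ | ⟨t, l2⟩
        · rw [hfl] at hfh
          simp at hfh
        · rw [hfl] at hfh
          simp only [List.head?_cons, Option.some.injEq] at hfh
          subst hfh
          refine ⟨merge x l2 u', ?_⟩
          rw [hW', hfl]
          rfl
      have hGW' : G x x W' := by
        obtain ⟨t, ht⟩ := hcons
        rw [ht, good_iff]
        refine ⟨rfl, ?_⟩
        rw [← ht, m2]
        exact e2
      refine ⟨hlen, hGW', ?_, ?_, ?_⟩
      · change merge x (flip (bits x W')) (phi n (x + 1) (rest x W')) = W
        rw [m1, m2, e3, flip_flip hlh, hl, hu, merge_bits_rest]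
      · rw [copies_1121 x W' (G_mem hGW'), copies_1211 x W (G_mem hG), m1, m2, e4]
        congr 1
        have := cw_flip [false, true] l
        simp only [List.cons_append, List.nil_append, List.reverse_cons, List.reverse_nil] at this
        exact this.symm
      · rw [copies_1211 x W' (G_mem hGW'), copies_1121 x W (G_mem hG), m1, m2, e5]
        congr 1
        have := cw_flip [true, false] l
        simp only [List.cons_append, List.nil_append, List.reverse_cons, List.reverse_nil] at this
        exact this.symm

lemma G_le {b : ℕ} : ∀ {A : ℕ} {w : List ℕ}, G b A w → ∀ x ∈ w, x ≤ A + w.length := by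
  intro A w
  induction w generalizing A with
  | nil => intro _ x hx; simp at hx
  | cons y w ih =>
    rintro ⟨_, h2, h3⟩ x hx
    rcases List.mem_cons.1 hx with rfl | hx
    · omega
    · have := ih h3 x hx
      rw [List.length_cons]
      omega

lemma R_finite (n k : ℕ) (v : List ℕ) : (R n k v).Finite := by
  have h1 : ({l : List (Fin (n + 2)) | l.length = n}).Finite := List.finite_length_eq _ n
  refine (h1.image (List.map Fin.val)).subset ?_
  rintro w ⟨hw, hr, -⟩
  have h2 := G_le ((isRGF_iff w).1 hr)
  refine ⟨w.attach.map (fun x => ⟨x.1, by have := h2 x.1 x.2; omega⟩), ?_, ?_⟩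
  · simp [hw]
  · rw [List.map_map]
    have : (Fin.val ∘ fun x : {x // x ∈ w} => (⟨x.1, by have := h2 x.1 x.2; omega⟩ : Fin (n + 2))) =
        Subtype.val := rfl
    rw [this, List.attach_map_subtype_val]

/-- **The patterns `1121` and `1211` are `k`-Wilf equivalent for every `k`**: they are distinct
restricted growth functions, and for all `n` and `k` as many restricted growth functions of length
`n` contain exactly `k` copies of the one as of the other. -/
theorem result :
    IsRGF [1, 1, 2, 1] ∧ IsRGF [1, 2, 1, 1] ∧ ([1, 1, 2, 1] : List ℕ) ≠ [1, 2, 1, 1] ∧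
      ∀ n k : ℕ, (R n k [1, 1, 2, 1]).Finite ∧ (R n k [1, 2, 1, 1]).Finite ∧
        (R n k [1, 1, 2, 1]).ncard = (R n k [1, 2, 1, 1]).ncard := by
  refine ⟨?_, ?_, by decide, ?_⟩
  · rw [isRGF_iff]
    simp [G]
  · rw [isRGF_iff]
    simp [G]
  · intro n k
    refine ⟨R_finite _ _ _, R_finite _ _ _, ?_⟩
    apply Set.ncard_congr (fun w _ => phi n 1 w)
    · rintro w ⟨h1, h2, h3⟩
      have h := phi_spec n 1 w h1.le ((isRGF_iff w).1 h2)
      exact ⟨by rw [h.1, h1], (isRGF_iff _).2 h.2.1, by rw [h.2.2.2.2, h3]⟩
    · rintro w w' ⟨h1, h2, h3⟩ ⟨h1', h2', h3'⟩ he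
      have h := phi_spec n 1 w h1.le ((isRGF_iff w).1 h2)
      have h' := phi_spec n 1 w' h1'.le ((isRGF_iff w').1 h2')
      rw [← h.2.2.1, ← h'.2.2.1]
      rw [he]
    · rintro w ⟨h1, h2, h3⟩
      have h := phi_spec n 1 w h1.le ((isRGF_iff w).1 h2)
      exact ⟨phi n 1 w, ⟨by rw [h.1, h1], (isRGF_iff _).2 h.2.1, by rw [h.2.2.2.1, h3]⟩, h.2.2.1⟩

end Pool.Agent.Results.MP_2348bc_co.AllK
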